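import Pool.Agent.K3h89.SZ.SYSQ
import Pool.Agent.Helper742.Brun

/-!
Zk41/SC (helper41): local densities of the representations `n = f(p) + q`: most classes modulo a product of
primes have the expected number of admissible classes, up to a constant.
-/

set_option autoImplicit false

open Finset

namespace Pool.Agent.Zk41.SC

open Pool.Agent.K3h89.SZ (Fq sysq sysq_rt)
open Pool.Agent.Y677.RSZ (rt)

/-- the number of classes `x` modulo `p` with `p ∤ x (s - f(x))` -/
noncomputable def Np (b c : ℤ) (s p : ℕ) : ℕ := p - rt (Fq b c s) p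

/-- the inverse of the local density -/
noncomputable def hl (b c : ℤ) (p s : ℕ) : ℝ := ((p : ℝ) - 1) ^ 2 / (p * (Np b c s p : ℝ))

lemma rt_ge_one (b c : ℤ) (s p : ℕ) (hp : p.Prime) : 1 ≤ rt (Fq b c s) p := by
  classical
  unfold rt
  rw [Nat.one_le_iff_ne_zero, Finset.card_ne_zero]
  refine ⟨0, ?_⟩
  rw [mem_filter, mem_range]
  refine ⟨hp.pos, ?_⟩
  simp [Fq]

lemma fq_mod (b c : ℤ) (s p : ℕ) (x : ℤ) : (p : ℤ) ∣ Fq b c (s % p) x ↔ (p : ℤ) ∣ Fq b c s x := by
  have h1 : (p : ℤ) ∣ Fq b c s x - Fq b c (s % p) x := by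
    unfold Fq
    have h2 : (p : ℤ) ∣ (s : ℤ) - ((s % p : ℕ) : ℤ) := by
      rw [Int.natCast_mod]
      exact Int.dvd_self_sub_emod
    have e : x * ((s : ℤ) - (x ^ 2 + b * x + c)) - x * (((s % p : ℕ) : ℤ) - (x ^ 2 + b * x + c)) =
        x * ((s : ℤ) - ((s % p : ℕ) : ℤ)) := by ring
    rw [e]
    exact h2.mul_left _
  exact (Int.dvd_iff_dvd_of_dvd_sub h1).symm

lemma np_mod (b c : ℤ) (s p : ℕ) : Np b c (s % p) p = Np b c s p := by
  classical
  unfold Np rt
  congr 2
  apply filter_congr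
  intro x _
  exact fq_mod b c s p x

lemma sum_rt (b c : ℤ) (p : ℕ) (hp : p.Prime) : ∑ s ∈ range p, rt (Fq b c s) p = p + (p - 1) := by
  classical
  have h1 : ∀ s ∈ range p, rt (Fq b c s) p = ∑ x ∈ range p, if (p : ℤ) ∣ Fq b c s (x : ℤ) then 1 else 0 := by
    intro s _
    unfold rt
    rw [card_filter]
  rw [sum_congr rfl h1, sum_comm]
  have h2 : ∀ x ∈ range p, ∑ s ∈ range p, (if (p : ℤ) ∣ Fq b c s (x : ℤ) then 1 else 0) =
      if x = 0 then p else 1 := by
    intro x hx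
    rw [mem_range] at hx
    split_ifs with h0
    · subst h0
      have : ∀ s ∈ range p, (if (p : ℤ) ∣ Fq b c s ((0 : ℕ) : ℤ) then 1 else 0) = 1 := by
        intro s _
        rw [if_pos]
        simp [Fq]
      rw [sum_congr rfl this]
      simp
    · rw [← card_filter, card_eq_one]
      have hpz : (0 : ℤ) < p := by exact_mod_cast hp.pos
      refine ⟨(((x : ℤ) ^ 2 + b * x + c) % p).toNat, ?_⟩
      have hr : (((((x : ℤ) ^ 2 + b * x + c) % p).toNat : ℕ) : ℤ) = ((x : ℤ) ^ 2 + b * x + c) % p :=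
        Int.toNat_of_nonneg (Int.emod_nonneg _ hpz.ne')
      ext s
      rw [mem_filter, mem_range, mem_singleton]
      have hxp : ¬ (p : ℤ) ∣ (x : ℤ) := by
        intro h
        have := Nat.le_of_dvd (Nat.pos_of_ne_zero h0) (Int.natCast_dvd_natCast.1 h)
        omega
      constructor
      · rintro ⟨h3, h4⟩
        unfold Fq at h4
        rcases (Nat.prime_iff_prime_int.1 hp).dvd_or_dvd h4 with h5 | h5
        · exact absurd h5 hxp
        · have h6 : (s : ℤ) % p = ((x : ℤ) ^ 2 + b * x + c) % p := (Int.modEq_iff_dvd.2 h5).symm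
          rw [Int.emod_eq_of_lt (by omega) (by exact_mod_cast h3)] at h6
          rw [← h6] at hr ⊢
          simp
      · intro h
        subst h
        refine ⟨?_, ?_⟩
        · have := Int.emod_lt_of_pos ((x : ℤ) ^ 2 + b * x + c) hpz
          have h4 : ((((x : ℤ) ^ 2 + b * x + c) % p).toNat : ℤ) < p := by rw [hr]; exact this
          exact_mod_cast h4
        · unfold Fq
          apply Dvd.dvd.mul_left
          rw [hr]
          have := Int.dvd_self_sub_emod (x := (x : ℤ) ^ 2 + b * x + c) (m := (p : ℤ))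
          rw [← dvd_neg]
          rw [neg_sub]
          exact this
  rw [sum_congr rfl h2]
  have hp1 := hp.one_lt
  rw [← add_sum_erase (range p) _ (mem_range.2 hp.pos), if_pos rfl]
  congr 1
  have : ∀ x ∈ (range p).erase 0, (if x = 0 then p else 1) = 1 := by
    intro x hx
    rw [if_neg (ne_of_mem_erase hx)]
  rw [sum_congr rfl this, sum_const, smul_eq_mul, mul_one, card_erase_of_mem (mem_range.2 hp.pos),
    card_range]

lemma hl_nonneg (b c : ℤ) (p s : ℕ) : 0 ≤ hl b c p s := by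
  unfold hl
  positivity

/-- the average of the inverse local densities -/
lemma sum_hl (b c : ℤ) (p : ℕ) (hp : p.Prime) :
    ∑ s ∈ range p, hl b c p s ≤ p * (1 + 3 / (p : ℝ) ^ 2) := by
  classical
  have hp2 := hp.two_le
  have hpr : (2 : ℝ) ≤ p := by exact_mod_cast hp2
  have hp0 : (0 : ℝ) < p := by linarith
  by_cases h5 : 5 ≤ p
  · have h5r : (5 : ℝ) ≤ p := by exact_mod_cast h5
    have h1 : ∀ s ∈ range p, hl b c p s ≤
        ((p : ℝ) - 1) / p * (1 + ((rt (Fq b c s) p : ℝ) - 1) / ((p : ℝ) - 3)) := by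
      intro s _
      have h2 : 1 ≤ rt (Fq b c s) p := rt_ge_one b c s p hp
      have h3 : rt (Fq b c s) p ≤ 3 := sysq_rt b c s hp
      have h2r : (1 : ℝ) ≤ rt (Fq b c s) p := by exact_mod_cast h2
      have h3r : (rt (Fq b c s) p : ℝ) ≤ 3 := by exact_mod_cast h3
      unfold hl Np
      rw [Nat.cast_sub (by omega)]
      set t : ℝ := (rt (Fq b c s) p : ℝ) with ht
      have hd : (0 : ℝ) < p - t := by linarith
      have hd3 : (0 : ℝ) < (p : ℝ) - 3 := by linarith
      rw [div_le_iff₀ (by positivity)]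
      have e : ((p : ℝ) - 1) / p * (1 + (t - 1) / ((p : ℝ) - 3)) * (p * (p - t)) =
          ((p : ℝ) - 1) * (((p : ℝ) - 3 + (t - 1)) * (p - t) / ((p : ℝ) - 3)) := by
        field_simp
      rw [e, sq]
      apply mul_le_mul_of_nonneg_left _ (by linarith)
      rw [le_div_iff₀ hd3]
      nlinarith
    refine (sum_le_sum h1).trans ?_
    rw [← mul_sum, sum_add_distrib, ← sum_div, sum_sub_distrib]
    have h2 : ∑ s ∈ range p, (rt (Fq b c s) p : ℝ) = (p : ℝ) + (p - 1) := by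
      have := sum_rt b c p hp
      have h3 : ((∑ s ∈ range p, rt (Fq b c s) p : ℕ) : ℝ) = ((p + (p - 1) : ℕ) : ℝ) := by rw [this]
      push_cast [Nat.cast_sub (show 1 ≤ p by omega)] at h3
      exact h3
    rw [h2]
    simp only [sum_const, card_range, nsmul_eq_mul, mul_one]
    have hd3 : (0 : ℝ) < (p : ℝ) - 3 := by linarith
    have e : (p : ℝ) * (1 + 3 / (p : ℝ) ^ 2) - ((p : ℝ) - 1) / p * (p + (p + (p - 1) - p) / ((p : ℝ) - 3)) =
        (2 * (p : ℝ) - 10) / (p * ((p : ℝ) - 3)) := by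
      field_simp
      ring
    have h3 : 0 ≤ (2 * (p : ℝ) - 10) / (p * ((p : ℝ) - 3)) :=
      div_nonneg (by linarith) (by positivity)
    linarith
  · have h6 : p = 2 ∨ p = 3 := by
      have h4 : p ≠ 4 := by
        rintro rfl
        exact absurd hp (by norm_num)
      omega
    have h1 : ∀ s ∈ range p, hl b c p s ≤ ((p : ℝ) - 1) ^ 2 / p := by
      intro s _
      unfold hl
      rcases Nat.eq_zero_or_pos (Np b c s p) with h0 | h0
      · rw [h0]
        simp
        positivity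
      · have h0r : (1 : ℝ) ≤ Np b c s p := by exact_mod_cast h0
        apply div_le_div_of_nonneg_left (sq_nonneg _) hp0
        nlinarith
    refine (sum_le_sum h1).trans ?_
    rw [sum_const, card_range, nsmul_eq_mul]
    apply mul_le_mul_of_nonneg_left _ hp0.le
    rcases h6 with rfl | rfl <;> norm_num

lemma prod_le (S : Finset ℕ) (hS : ∀ p ∈ S, p.Prime) :
    ∏ p ∈ S, (1 + 3 / (p : ℝ) ^ 2) ≤ Real.exp 3 := by
  classical
  have h1 : ∏ p ∈ S, (1 + 3 / (p : ℝ) ^ 2) ≤ ∏ p ∈ S, Real.exp (3 / (p : ℝ) ^ 2) := by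
    apply prod_le_prod
    · intro p _
      positivity
    · intro p _
      have := Real.add_one_le_exp (3 / (p : ℝ) ^ 2)
      linarith
  rw [← Real.exp_sum] at h1
  refine h1.trans (Real.exp_le_exp.2 ?_)
  have h2 : ∀ N : ℕ, ∑ n ∈ Icc 2 (N + 1), 1 / (n : ℝ) ^ 2 ≤ 1 - 1 / ((N : ℝ) + 1) := by
    intro N
    induction N with
    | zero => simp
    | succ N ih =>
      rw [show N + 1 + 1 = (N + 1) + 1 by rfl, sum_Icc_succ_top (by omega)]
      have hN : (0 : ℝ) ≤ N := Nat.cast_nonneg _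
      have h3 : 1 / (((N + 1 + 1 : ℕ) : ℝ)) ^ 2 ≤ 1 / ((N : ℝ) + 1) - 1 / ((N : ℝ) + 1 + 1) := by
        push_cast
        rw [div_sub_div _ _ (by positivity) (by positivity), div_le_div_iff₀ (by positivity) (by positivity)]
        nlinarith
      push_cast at h3 ⊢
      linarith
  have h3 : S ⊆ Icc 2 (S.sup id + 1) := by
    intro p hp
    rw [mem_Icc]
    have : p ≤ S.sup id := le_sup (f := id) hp
    exact ⟨(hS p hp).two_le, by omega⟩
  have h4 : ∑ p ∈ S, 3 / (p : ℝ) ^ 2 ≤ ∑ p ∈ Icc 2 (S.sup id + 1), 3 / (p : ℝ) ^ 2 :=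
    sum_le_sum_of_subset_of_nonneg h3 (fun _ _ _ => by positivity)
  have h5 : ∑ p ∈ Icc 2 (S.sup id + 1), 3 / (p : ℝ) ^ 2 = 3 * ∑ n ∈ Icc 2 (S.sup id + 1), 1 / (n : ℝ) ^ 2 := by
    rw [mul_sum]
    apply sum_congr rfl
    intro n _
    ring
  have h6 := h2 (S.sup id)
  have h7 : 0 ≤ 1 / (((S.sup id : ℕ) : ℝ) + 1) := by positivity
  rw [h5] at h4
  linarith

/-- the average over the classes modulo `∏ p` -/
lemma avg_hl (b c : ℤ) (S : Finset ℕ) (hS : ∀ p ∈ S, p.Prime) :
    ∑ s ∈ range (∏ p ∈ S, p), ∏ p ∈ S, hl b c p s ≤ Real.exp 3 * (∏ p ∈ S, p : ℕ) := by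
  have h1 := Pool.Agent.Helper742.sum_prod_period S hS (fun p n => hl b c p n) (by
    intro p _ n
    show hl b c p (n % p) = hl b c p n
    unfold hl
    rw [np_mod])
  rw [h1]
  have h2 : ∏ p ∈ S, ∑ n ∈ range p, hl b c p n ≤ ∏ p ∈ S, ((p : ℝ) * (1 + 3 / (p : ℝ) ^ 2)) :=
    prod_le_prod (fun p _ => sum_nonneg fun _ _ => hl_nonneg b c p _) (fun p hp => sum_hl b c p (hS p hp))
  refine h2.trans ?_
  rw [prod_mul_distrib, mul_comm]
  push_cast
  exact mul_le_mul_of_nonneg_right (prod_le S hS) (prod_nonneg fun _ _ => Nat.cast_nonneg _)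

/-- few classes have a small local density -/
lemma few_cls (b c : ℤ) (S : Finset ℕ) (hS : ∀ p ∈ S, p.Prime) (K : ℝ) (hK : 0 < K) :
    (((range (∏ p ∈ S, p)).filter (fun s => K < ∏ p ∈ S, hl b c p s)).card : ℝ) ≤
      Real.exp 3 / K * (∏ p ∈ S, p : ℕ) := by
  have h1 := avg_hl b c S hS
  set T := (range (∏ p ∈ S, p)).filter (fun s => K < ∏ p ∈ S, hl b c p s) with hT
  have h2 : (T.card : ℝ) * K ≤ ∑ s ∈ range (∏ p ∈ S, p), ∏ p ∈ S, hl b c p s := by
    calc (T.card : ℝ) * K = ∑ s ∈ T, K := by rw [sum_const, nsmul_eq_mul]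
      _ ≤ ∑ s ∈ T, ∏ p ∈ S, hl b c p s := sum_le_sum fun s hs => (mem_filter.1 hs).2.le
      _ ≤ _ := sum_le_sum_of_subset_of_nonneg (filter_subset _ _)
        (fun s _ _ => prod_nonneg fun p _ => hl_nonneg b c p s)
  rw [div_mul_eq_mul_div, le_div_iff₀ hK]
  exact h2.trans h1

end Pool.Agent.Zk41.SC
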