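import Pool.Agent.Zk41.SC.B
import Pool.Agent.H325R2.PPPnt
import Pool.Agent.H343R2.EH.Primes
import Pool.Agent.H373R2.T7.LamMaj

/-!
Zk41/SC (helper41): the primes of `[X, 2X)` in the classes modulo `Wm X`.
-/

set_option autoImplicit false

open Finset Filter Topology

namespace Pool.Agent.Zk41.SC

open Pool.Agent.H361R2.PP
open Pool.Agent.W70.HR

lemma evN (P : ℝ → Prop) (h : ∀ᶠ x : ℝ in Filter.atTop, P x) : ∃ N₀ : ℕ, ∀ N : ℕ, N₀ ≤ N → P N := by
  obtain ⟨x0, hx0⟩ := Filter.eventually_atTop.1 h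
  exact ⟨⌈x0⌉₊, fun N hN => hx0 N ((Nat.le_ceil _).trans (by exact_mod_cast hN))⟩

lemma ev_pow (k : ℕ) (c : ℝ) (s : ℝ) (hs : 0 < s) : ∀ᶠ x : ℝ in Filter.atTop, c * Real.log x ^ k ≤ x ^ s := by
  have h1 : (fun x : ℝ => Real.log x ^ (k : ℝ)) =o[Filter.atTop] fun x : ℝ => x ^ s :=
    isLittleO_log_rpow_rpow_atTop (k : ℝ) hs
  have h3 := (h1.const_mul_left c).def (c := 1) one_pos
  filter_upwards [h3, Filter.eventually_ge_atTop (1 : ℝ)] with x hx hx1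
  rw [one_mul, Real.norm_of_nonneg (Real.rpow_nonneg (by linarith) _), Real.rpow_natCast] at hx
  exact (le_abs_self _).trans hx

/-- Siegel-Walfisz for the number of primes in a progression -/
lemma sw_pi (U K : ℕ) : ∃ y0 : ℕ, ∀ y : ℕ, y0 ≤ y → ∀ q : ℕ, 1 ≤ q → (q : ℝ) ≤ Real.log y ^ K →
    ∀ c : ℕ, c < q → c.Coprime q →
    |H343E.piAP y q c - H343E.pi1 y / (Nat.totient q : ℝ)| ≤ y / Real.log y ^ U := by
  obtain ⟨B, X0, h0⟩ := H343E.primes_of U (H343E.unsmoothed (U + 2))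
  obtain ⟨x1, h1⟩ := evN _ (ev_pow (2 * K + B) 1 1 one_pos)
  obtain ⟨x2, h2⟩ := evN _ (Real.tendsto_log_atTop.eventually_ge_atTop 1)
  refine ⟨max (max X0 x1) (max x2 1), fun y hy q hq hqy c hc hcop => ?_⟩
  have hy0 : X0 ≤ y := le_trans (le_trans (le_max_left _ _) (le_max_left _ _)) hy
  have hy1 : x1 ≤ y := le_trans (le_trans (le_max_right _ _) (le_max_left _ _)) hy
  have hy2 : x2 ≤ y := le_trans (le_trans (le_max_left _ _) (le_max_right _ _)) hy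
  have hy3 : 1 ≤ y := le_trans (le_trans (le_max_right _ _) (le_max_right _ _)) hy
  have hyR : (1 : ℝ) ≤ y := by exact_mod_cast hy3
  have hL := h2 y hy2
  have hL0 : 0 < Real.log y := by linarith
  have hA := h1 y hy1
  rw [one_mul, pow_add, pow_mul', Real.rpow_one] at hA
  have hq1 : (1 : ℝ) ≤ q := by exact_mod_cast hq
  have hD2 : (q : ℝ) ^ 2 ≤ 1 * y / Real.log y ^ B := by
    rw [le_div_iff₀ (by positivity), one_mul]
    refine le_trans ?_ hA
    gcongr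
  have hD1 : (q : ℝ) ≤ y / Real.log y ^ B := by
    rw [one_mul] at hD2
    refine le_trans ?_ hD2
    nlinarith
  have h4 := h0 y hy0 1 le_rfl q hD1 hD2 (fun q' => if q' = q then {c} else ∅)
    ⟨fun q' a ha => by
      split_ifs at ha with hh
      · rw [mem_singleton] at ha
        rw [ha, hh]
        exact ⟨hc, hcop⟩
      · simp at ha, fun q' => by
      split_ifs <;> simp⟩
  rw [one_mul] at h4
  refine le_trans ?_ h4
  have h5 := single_le_sum (f := fun q' => ∑ a ∈ (if q' = q then ({c} : Finset ℕ) else ∅),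
    |H343E.piAP y q' a - H343E.pi1 y / (Nat.totient q' : ℝ)|)
    (s := Icc 1 q) (fun i _ => sum_nonneg (fun _ _ => abs_nonneg _)) (mem_Icc.2 ⟨hq, le_rfl⟩)
  refine le_trans (le_of_eq ?_) h5
  simp

/-- the primes of the class -/
noncomputable def AP (X r : ℕ) : Finset ℕ := (Ico X (2 * X)).filter (fun n => n.Prime ∧ n % Wm X = r)

lemma AP_eq (X r : ℕ) (hX : 1 ≤ X) (hr : r < Wm X) :
    ((AP X r).card : ℝ) = H343E.piAP (2 * X - 1) (Wm X) r - H343E.piAP (X - 1) (Wm X) r := by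
  classical
  unfold AP H343E.piAP
  have h1 : (Icc 1 (2 * X - 1)).filter (fun p => p.Prime ∧ p ≡ r [MOD Wm X]) =
      (Icc 1 (X - 1)).filter (fun p => p.Prime ∧ p ≡ r [MOD Wm X]) ∪
      (Ico X (2 * X)).filter (fun n => n.Prime ∧ n % Wm X = r) := by
    ext p
    simp only [mem_filter, mem_union, mem_Icc, mem_Ico, Nat.ModEq, Nat.mod_eq_of_lt hr]
    constructor
    · rintro ⟨h1, h2⟩
      by_cases h : p ≤ X - 1
      · exact Or.inl ⟨⟨h1.1, h⟩, h2⟩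
      · exact Or.inr ⟨⟨by omega, by omega⟩, h2⟩
    · rintro (⟨h1, h2⟩ | ⟨h1, h2⟩)
      · exact ⟨⟨h1.1, by omega⟩, h2⟩
      · exact ⟨⟨by omega, by omega⟩, h2⟩
  rw [h1, card_union_of_disjoint]
  · push_cast
    ring
  · rw [disjoint_left]
    intro p hp hp2
    simp only [mem_filter, mem_Icc, mem_Ico] at hp hp2
    omega

lemma Pr_eq (X : ℕ) (hX : 1 ≤ X) : Pr X = H343E.pi1 (2 * X - 1) - H343E.pi1 (X - 1) := by
  classical
  unfold Pr H343E.pi1
  have h1 : (Icc 1 (2 * X - 1)).filter (fun p => p.Prime) =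
      (Icc 1 (X - 1)).filter (fun p => p.Prime) ∪ (Ico X (2 * X)).filter Nat.Prime := by
    ext p
    simp only [mem_filter, mem_union, mem_Icc, mem_Ico]
    constructor
    · rintro ⟨h1, h2⟩
      by_cases h : p ≤ X - 1
      · exact Or.inl ⟨⟨h1.1, h⟩, h2⟩
      · exact Or.inr ⟨⟨by omega, by omega⟩, h2⟩
    · rintro (⟨h1, h2⟩ | ⟨h1, h2⟩)
      · exact ⟨⟨h1.1, by omega⟩, h2⟩
      · exact ⟨⟨by omega, by omega⟩, h2⟩
  rw [h1, card_union_of_disjoint]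
  · push_cast
    ring
  · rw [disjoint_left]
    intro p hp hp2
    simp only [mem_filter, mem_Icc, mem_Ico] at hp hp2
    omega

lemma Wm_le_log : ∃ X₀ : ℕ, ∀ X : ℕ, X₀ ≤ X → (Wm X : ℝ) ≤ Real.log X := by
  obtain ⟨x2, h2⟩ := evN _ (Real.tendsto_log_atTop.eventually_ge_atTop 1)
  refine ⟨max x2 16, fun X hX => ?_⟩
  have e1 := Pool.Agent.H325R2.wtx1 X ((le_max_right _ _).trans hX)
  have hl := h2 X ((le_max_left _ _).trans hX)
  refine e1.trans ?_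
  calc Real.log X ^ (7 / 20 : ℝ) ≤ Real.log X ^ (1 : ℝ) :=
        Real.rpow_le_rpow_of_exponent_le hl (by norm_num)
    _ = Real.log X := Real.rpow_one _

/-- a lower bound for the number of primes in a class -/
lemma AP_card : ∃ X₀ : ℕ, ∀ X : ℕ, X₀ ≤ X → ∀ r : ℕ, r < Wm X → r.Coprime (Wm X) →
    (X : ℝ) / (2 * ((Nat.totient (Wm X) : ℝ) * Real.log X)) ≤ ((AP X r).card : ℝ) := by
  obtain ⟨y0, h0⟩ := sw_pi 3 2
  obtain ⟨x1, h1⟩ := Wm_le_log
  obtain ⟨x2, h2⟩ := evN _ (Real.tendsto_log_atTop.eventually_ge_atTop 96)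
  obtain ⟨x3, h3⟩ := Pool.Agent.H325R2.pnt (1 / 4) (by norm_num)
  refine ⟨y0 + x1 + x2 + x3 + 5, fun X hX r hr hcop => ?_⟩
  have hXr : (5 : ℝ) ≤ X := by exact_mod_cast (by omega : 5 ≤ X)
  have hW := h1 X (by omega)
  have hL := h2 X (by omega)
  set L := Real.log X with hLd
  have hWp := Wm_pos X
  have hφ : (1 : ℝ) ≤ Nat.totient (Wm X) := by exact_mod_cast Nat.totient_pos.2 hWp
  have hφW : (Nat.totient (Wm X) : ℝ) ≤ Wm X := by exact_mod_cast Nat.totient_le _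
  set φ : ℝ := ((Nat.totient (Wm X) : ℕ) : ℝ) with hφd
  -- logarithms
  have e1 : L / 2 ≤ Real.log ((X - 1 : ℕ) : ℝ) := by
    rw [Nat.cast_sub (by omega), Nat.cast_one, hLd, ← Real.log_sqrt (by linarith)]
    apply Real.log_le_log (Real.sqrt_pos.2 (by linarith))
    rw [Real.sqrt_le_left (by linarith)]
    nlinarith
  have e2 : L / 2 ≤ Real.log ((2 * X - 1 : ℕ) : ℝ) := by
    refine e1.trans (Real.log_le_log ?_ ?_)
    · exact_mod_cast (by omega : 0 < X - 1)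
    · exact_mod_cast (by omega : X - 1 ≤ 2 * X - 1)
  have e3 : ∀ y : ℕ, L / 2 ≤ Real.log y → (Wm X : ℝ) ≤ Real.log y ^ 2 := by
    intro y hy
    nlinarith
  have f1 := h0 (X - 1) (by omega) (Wm X) hWp (e3 _ e1) r hr hcop
  have f2 := h0 (2 * X - 1) (by omega) (Wm X) hWp (e3 _ e2) r hr hcop
  have e4 : ∀ y : ℕ, L / 2 ≤ Real.log y → (y : ℝ) / Real.log y ^ 3 ≤ 8 * y / L ^ 3 := by
    intro y hy
    have h5 : (L / 2) ^ 3 ≤ Real.log y ^ 3 := pow_le_pow_left₀ (by linarith) hy 3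
    calc (y : ℝ) / Real.log y ^ 3 ≤ y / (L / 2) ^ 3 :=
          div_le_div_of_nonneg_left (Nat.cast_nonneg _) (by positivity) h5
      _ = 8 * y / L ^ 3 := by field_simp; ring
  have f1' := f1.trans (e4 _ e1)
  have f2' := f2.trans (e4 _ e2)
  have g1 := (abs_le.1 f1').2
  have g2 := (abs_le.1 f2').1
  have hPr := (abs_le.1 (h3 X (by omega))).1
  have c1 : ((X - 1 : ℕ) : ℝ) ≤ X := by exact_mod_cast (by omega : X - 1 ≤ X)
  have c2 : ((2 * X - 1 : ℕ) : ℝ) ≤ 2 * X := by exact_mod_cast (by omega : 2 * X - 1 ≤ 2 * X)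
  have g3 : 8 * ((X - 1 : ℕ) : ℝ) / L ^ 3 + 8 * ((2 * X - 1 : ℕ) : ℝ) / L ^ 3 ≤ 24 * X / L ^ 3 := by
    rw [← add_div]
    apply div_le_div_of_nonneg_right _ (by positivity)
    linarith
  have hL0 : 0 < L := by linarith
  have hX0 : (0 : ℝ) < X := by linarith
  have g4 : 24 * (X : ℝ) / L ^ 3 ≤ X / (4 * (φ * L)) := by
    rw [div_le_div_iff₀ (by positivity) (by positivity)]
    have : φ * 96 ≤ L * L := by nlinarith
    calc 24 * (X : ℝ) * (4 * (φ * L)) = X * L * (φ * 96) := by ring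
      _ ≤ X * L * (L * L) := mul_le_mul_of_nonneg_left this (by positivity)
      _ = X * L ^ 3 := by ring
  have g5 : 3 / 4 * (X : ℝ) / (φ * L) ≤ Pr X / φ := by
    have h7 : 3 / 4 * (X : ℝ) / L ≤ Pr X := by
      rw [div_le_iff₀ hL0]
      linarith
    calc 3 / 4 * (X : ℝ) / (φ * L) = (3 / 4 * (X : ℝ) / L) / φ := by field_simp
      _ ≤ Pr X / φ := div_le_div_of_nonneg_right h7 (by linarith)
  rw [AP_eq X r (by omega) hr]
  rw [Pr_eq X (by omega), sub_div] at g5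
  have g6 : (X : ℝ) / (2 * (φ * L)) = 3 / 4 * (X : ℝ) / (φ * L) - X / (4 * (φ * L)) := by
    field_simp
    ring
  rw [g6]
  linarith

/-- the primes are rough -/
lemma AP_sub : ∃ X₀ : ℕ, ∀ X : ℕ, X₀ ≤ X → ∀ r : ℕ, ∀ U : Finset ℕ, U = {0} →
    AP X r ⊆ (SI X r).filter (fun n => ∀ u ∈ U, rg (P1 (HH X) (JJ 1 X)) u n = 1) := by
  obtain ⟨X0, h0⟩ := Pool.Agent.H325R2.wtx2 1 one_pos
  refine ⟨X0, fun X hX r U hU n hn => ?_⟩
  subst hU
  unfold AP at hn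
  rw [mem_filter, mem_Ico] at hn
  rw [mem_filter]
  unfold SI
  rw [mem_filter, mem_Ico]
  refine ⟨⟨hn.1, hn.2.2⟩, fun u hu => ?_⟩
  rw [mem_singleton] at hu
  subst hu
  unfold rg
  rw [if_pos]
  intro p hp hd
  rw [mem_P1] at hp
  rw [add_zero] at hd
  have h1 := (Nat.prime_dvd_prime_iff_eq hp.2.1 hn.2.1).1 hd
  have h2 := (h0 X hX).1
  rw [Real.rpow_one] at h2
  have h3 : 2 ^ 2 ^ JJ 1 X ≤ X := by exact_mod_cast h2
  omega

/-- comparison with the rough numbers -/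
lemma AP_Om : ∃ c : ℝ, 0 < c ∧ ∃ X₀ : ℕ, ∀ X : ℕ, X₀ ≤ X → ∀ r : ℕ, r < Wm X → r.Coprime (Wm X) →
    c * Om 1 X 1 ≤ ((AP X r).card : ℝ) := by
  obtain ⟨C, hC, hM⟩ := mer
  obtain ⟨X1, h1⟩ := hM 1 one_pos le_rfl
  obtain ⟨X2, h2⟩ := AP_card
  refine ⟨1 / (2 * C), by positivity, X1 + X2 + 3, fun X hX r hr hcop => ?_⟩
  have hXr : (3 : ℝ) ≤ X := by exact_mod_cast (by omega : 3 ≤ X)
  have hL : 0 < Real.log X := Real.log_pos (by linarith)
  have h3 := (h1 X (by omega)).2.1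
  rw [one_mul] at h3
  refine le_trans ?_ (h2 X (by omega) r hr hcop)
  unfold Om
  have e1 : VV 1 X = ∏ p ∈ P1 (HH X) (JJ 1 X), (1 - 1 / (p : ℝ)) := rfl
  rw [← e1] at h3
  rw [pow_one]
  have hW : (0 : ℝ) < Wm X := by exact_mod_cast Wm_pos X
  have hφ : (0 : ℝ) < Nat.totient (Wm X) := by exact_mod_cast Nat.totient_pos.2 (Wm_pos X)
  have hC0 : (0 : ℝ) < C := by linarith
  have hX0 : (0 : ℝ) < X := by linarith
  have e2 : 1 / (2 * C) * ((X : ℝ) / Wm X * VV 1 X) = (VV 1 X * ((Nat.totient (Wm X) : ℝ) / Wm X) *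
      Real.log X) * (X / (2 * C * (Nat.totient (Wm X) * Real.log X))) := by
    field_simp
  rw [e2]
  calc _ ≤ C * (X / (2 * C * (Nat.totient (Wm X) * Real.log X))) :=
        mul_le_mul_of_nonneg_right h3 (by positivity)
    _ = _ := by field_simp

end Pool.Agent.Zk41.SC
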