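import Pool.Agent.Zk41.SC.A
import Pool.Agent.Zk41.SC.C
import Pool.Agent.H373R2.T7.Crt

/-!
Zk41/SC (helper41): the exceptional integers of the model for `f = x² + b x + c`.
-/

set_option autoImplicit false

open Finset Filter Topology Polynomial

namespace Pool.Agent.Zk41.SC

open Pool.Agent.H361R2.PP
open Pool.Agent.W70.HR
open Pool.Agent.TH882.PG
open Pool.Agent.TH882.PC (wX wX_pos wX_one)
open Pool.Agent.H373R2.T7 (lamz lamz_nonneg crt_card totient_prod)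
open Pool.Agent.K3h89.SZ (Fq sysq sysq_rt)
open Pool.Agent.Y677.RSZ (rt)

/-- the polynomial -/
noncomputable def fp (b c : ℤ) : ℤ[X] := X ^ 2 + C b * X + C c

lemma fp_eval (b c x : ℤ) : (fp b c).eval x = x ^ 2 + b * x + c := by
  simp [fp]

lemma fp_deg (b c : ℤ) : (fp b c).natDegree = 2 := by
  unfold fp
  compute_degree!

lemma fp_lead (b c : ℤ) : (fp b c).leadingCoeff = 1 := by
  unfold leadingCoeff
  rw [fp_deg]
  unfold fp
  rw [coeff_add, coeff_add, coeff_X_pow, coeff_C_mul, coeff_X, coeff_C]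
  norm_num

/-- the values of the polynomial -/
def kf (b c : ℤ) (n : ℕ) : ℕ := ((n : ℤ) ^ 2 + b * n + c).toNat

/-- from here on the polynomial is positive -/
def n0 (b c : ℤ) : ℕ := b.natAbs + c.natAbs + 1

lemma f_pos (b c : ℤ) (n : ℕ) (hn : n0 b c ≤ n) : 0 ≤ (n : ℤ) ^ 2 + b * n + c := by
  unfold n0 at hn
  have h1 : (b.natAbs : ℤ) + c.natAbs + 1 ≤ n := by exact_mod_cast hn
  have h2 : -(b.natAbs : ℤ) ≤ b := by omega
  have h3 : -(c.natAbs : ℤ) ≤ c := by omega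
  have h4 : (0 : ℤ) ≤ n := Int.natCast_nonneg n
  have h5 : (0 : ℤ) ≤ b.natAbs := Int.natCast_nonneg _
  have h6 : (0 : ℤ) ≤ c.natAbs := Int.natCast_nonneg _
  nlinarith

lemma kf_cast (b c : ℤ) (n : ℕ) (hn : n0 b c ≤ n) : (kf b c n : ℤ) = (n : ℤ) ^ 2 + b * n + c :=
  Int.toNat_of_nonneg (f_pos b c n hn)

/-- the primes dividing the modulus -/
noncomputable def SX (X : ℕ) : Finset ℕ := (range (HH X + 1)).filter Nat.Prime

lemma Wm_eq (X : ℕ) : Wm X = ∏ p ∈ SX X, p := rfl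

lemma SX_prime (X : ℕ) : ∀ p ∈ SX X, p.Prime := fun _ hp => (mem_filter.1 hp).2

open Classical in
/-- the admissible classes -/
noncomputable def Bs (b c : ℤ) (X s : ℕ) : Finset ℕ :=
  (range (Wm X)).filter (fun r => ∀ p ∈ SX X, ¬ (p : ℤ) ∣ Fq b c s ((r % p : ℕ) : ℤ))

lemma fq_modx (b c : ℤ) (s p r : ℕ) (hp : p.Prime) :
    (p : ℤ) ∣ Fq b c s ((r % p : ℕ) : ℤ) ↔ (p : ℤ) ∣ Fq b c s (r : ℤ) := by
  have h1 : (p : ℤ) ∣ Fq b c s (r : ℤ) - Fq b c s ((r % p : ℕ) : ℤ) := by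
    have h2 : (p : ℤ) ∣ (r : ℤ) - ((r % p : ℕ) : ℤ) := by
      rw [Int.natCast_mod]
      exact Int.dvd_self_sub_emod
    unfold Fq
    set x : ℤ := (r : ℤ)
    set y : ℤ := ((r % p : ℕ) : ℤ)
    have e : x * ((s : ℤ) - (x ^ 2 + b * x + c)) - y * ((s : ℤ) - (y ^ 2 + b * y + c)) =
        (x - y) * ((s : ℤ) - (x ^ 2 + x * y + y ^ 2) - b * (x + y) - c) := by ring
    rw [e]
    exact h2.mul_right _
  exact (Int.dvd_iff_dvd_of_dvd_sub h1).symm

lemma mem_Bs (b c : ℤ) (X s r : ℕ) : r ∈ Bs b c X s ↔ r < Wm X ∧ ∀ p ∈ SX X, ¬ (p : ℤ) ∣ Fq b c s (r : ℤ) := by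
  unfold Bs
  rw [mem_filter, mem_range]
  constructor
  · rintro ⟨h1, h2⟩
    exact ⟨h1, fun p hp h => h2 p hp ((fq_modx b c s p r (SX_prime X p hp)).2 h)⟩
  · rintro ⟨h1, h2⟩
    exact ⟨h1, fun p hp h => h2 p hp ((fq_modx b c s p r (SX_prime X p hp)).1 h)⟩

lemma Bs_card (b c : ℤ) (X s : ℕ) : (Bs b c X s).card = ∏ p ∈ SX X, Np b c s p := by
  classical
  unfold Bs
  rw [Wm_eq]
  have h := crt_card (fun p a => ¬ (p : ℤ) ∣ Fq b c s ((a : ℕ) : ℤ)) (SX X) (SX_prime X)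
  refine (show _ = _ by convert h).trans ?_
  apply prod_congr rfl
  intro p _
  unfold Np rt
  have h1 := card_filter_add_card_filter_not (s := range p) (fun a : ℕ => (p : ℤ) ∣ Fq b c s (a : ℤ))
  rw [card_range] at h1
  have h2 : ((range p).filter (fun a : ℕ => (p : ℤ) ∣ Fq b c s (a : ℤ))).card =
    ((range p).filter (fun r : ℕ => (p : ℤ) ∣ Fq b c s r)).card := by congr
  omega

/-- lower bound for the number of admissible classes -/
lemma Bs_low (b c : ℤ) (hbc : Odd (b + c)) (hb : ¬ (3 : ℤ) ∣ b) (X s : ℕ) (hs : Odd s) (K : ℝ)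
    (hK : ∏ p ∈ SX X, hl b c p s ≤ K) :
    (Nat.totient (Wm X) : ℝ) ^ 2 ≤ K * (Wm X * ((Bs b c X s).card : ℝ)) := by
  have hsys := (sysq b c s).1 hbc hb hs
  have hN : ∀ p ∈ SX X, 0 < Np b c s p := by
    intro p hp
    unfold Np
    have := (hsys.root p (SX_prime X p hp)).2
    omega
  have e1 : ∏ p ∈ SX X, hl b c p s = (Nat.totient (Wm X) : ℝ) ^ 2 / (Wm X * ((Bs b c X s).card : ℝ)) := by
    unfold hl
    rw [prod_div_distrib, prod_pow, prod_mul_distrib, Bs_card, Wm_eq, totient_prod _ (SX_prime X)]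
    push_cast
    congr 2
    apply prod_congr rfl
    intro p hp
    have := (SX_prime X p hp).one_lt
    rw [Nat.cast_sub (by omega), Nat.cast_one]
  have h1 : (0 : ℝ) < Wm X := by exact_mod_cast Wm_pos X
  have h2 : (0 : ℝ) < (Bs b c X s).card := by
    rw [Bs_card]
    push_cast
    exact prod_pos fun p hp => by exact_mod_cast hN p hp
  rw [e1, div_le_iff₀ (by positivity)] at hK
  exact hK

/-- the exceptional integers for one class -/
lemma bad4 (b c : ℤ) (η : ℝ) (hη : 0 < η) (E : ℕ) : ∃ X₀ : ℕ, ∀ X : ℕ, X₀ ≤ X → ∀ z : ℕ, HH X ≤ z →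
    (z : ℝ) ≤ Real.log X ^ E → ∀ a0 Z s : ℕ, (∀ n : ℕ, X ≤ n → n < 2 * X → kf b c n ≤ a0) →
    a0 + X ≤ Z → s < Wm X → ∀ r ∈ Bs b c X s,
    (((IA X a0 Z s).filter (fun N => ∑ n ∈ AP X r, lamz z (N - kf b c n) <
      wX X * ((AP X r).card : ℝ) / 2)).card : ℝ) ≤ η * (Z / Wm X) := by
  obtain ⟨c0, hc0, X1, h1⟩ := AP_Om
  obtain ⟨X2, h2⟩ := AP_sub
  obtain ⟨X3, h3⟩ := bad3G (fp b c) (by rw [fp_deg]; norm_num) (by rw [fp_lead]; norm_num) 1 0 1 c0 η
    one_pos le_rfl hc0 hη E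
  refine ⟨X1 + X2 + X3 + n0 b c, fun X hX z hz1 hz2 a0 Z s ha0 hZ hs r hr => ?_⟩
  rw [mem_Bs] at hr
  have hcop : r.Coprime (Wm X) := by
    rw [Wm_eq]
    apply Nat.Coprime.prod_right
    intro p hp
    rw [Nat.coprime_comm]
    rw [(SX_prime X p hp).coprime_iff_not_dvd]
    intro hd
    apply hr.2 p hp
    unfold Fq
    exact (Int.natCast_dvd_natCast.2 hd).mul_right _
  have hmem : ∀ n ∈ AP X r, X ≤ n ∧ n < 2 * X ∧ n % Wm X = r := by
    intro n hn
    unfold AP at hn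
    rw [mem_filter, mem_Ico] at hn
    exact ⟨hn.1.1, hn.1.2, hn.2.2⟩
  refine h3 X (by omega) r hr.1 {0} (card_singleton 0) (fun u hu => by rw [mem_singleton] at hu; omega)
    z hz1 hz2 (AP X r) (h2 X (by omega) r {0} rfl) (h1 X (by omega) r hr.1 hcop) (kf b c) ?_ a0 Z s ?_ hZ
    hs ?_
  · intro n hn n' hn'
    rw [kf_cast b c n (by have := hmem n hn; omega), kf_cast b c n' (by have := hmem n' hn'; omega),
      fp_eval, fp_eval]
  · intro n hn
    exact ha0 n (hmem n hn).1 (hmem n hn).2.1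
  · intro N hN n hn
    have hn' := hmem n hn
    unfold IA at hN
    rw [mem_filter, mem_Ico] at hN
    have hk := ha0 n hn'.1 hn'.2.1
    rw [Wm_eq]
    apply Nat.Coprime.prod_right
    intro p hp
    have hpp := SX_prime X p hp
    rw [Nat.coprime_comm]
    rw [hpp.coprime_iff_not_dvd]
    intro hd
    apply hr.2 p hp
    have hpW : p ∣ Wm X := by rw [Wm_eq]; exact dvd_prod_of_mem (fun p => p) hp
    have e1 : (p : ℤ) ∣ (N : ℤ) - kf b c n := by
      have := Int.natCast_dvd_natCast.2 hd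
      rwa [Nat.cast_sub (by omega)] at this
    rw [kf_cast b c n (by omega)] at e1
    have hWp : ∀ u v : ℕ, u % Wm X = v → (p : ℤ) ∣ (u : ℤ) - v := by
      intro u v huv
      have h5 : (Wm X : ℤ) ∣ (u : ℤ) - v := by
        rw [← huv, Int.natCast_mod]
        exact Int.dvd_self_sub_emod
      exact (Int.natCast_dvd_natCast.2 hpW).trans h5
    have e2 := hWp N s hN.2
    have e3 := hWp n r hn'.2.2
    unfold Fq
    apply Dvd.dvd.mul_left
    have e4 : (s : ℤ) - ((r : ℤ) ^ 2 + b * r + c) = ((N : ℤ) - ((n : ℤ) ^ 2 + b * n + c)) -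
        ((N : ℤ) - s) + ((n : ℤ) - r) * ((n : ℤ) + r + b) := by ring
    rw [e4]
    exact (e1.sub e2).add (e3.mul_right _)

end Pool.Agent.Zk41.SC
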