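import Pool.Agent.Zk41.SC.D

/-!
Zk41/SC (helper41): the model for the number of representations is large for most integers.
-/

set_option autoImplicit false

open Finset Filter Topology Polynomial

namespace Pool.Agent.Zk41.SC

open Pool.Agent.H361R2.PP
open Pool.Agent.W70.HR
open Pool.Agent.TH882.PG
open Pool.Agent.TH882.PC (wX wX_pos wX_one)
open Pool.Agent.H373R2.T7 (lamz lamz_nonneg crt_card totient_prod)

/-- the primes of `[X, 2X)` -/
def PP (X : ℕ) : Finset ℕ := (Ico X (2 * X)).filter Nat.Prime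

/-- the model -/
noncomputable def TT (b c : ℤ) (X z N : ℕ) : ℝ := ∑ n ∈ PP X, lamz z (N - kf b c n)

open Classical in
/-- the exceptional integers of one class -/
lemma bad5 (b c : ℤ) (η : ℝ) (hη : 0 < η) (E : ℕ) : ∃ X₀ : ℕ, ∀ X : ℕ, X₀ ≤ X → ∀ z : ℕ, HH X ≤ z →
    (z : ℝ) ≤ Real.log X ^ E → ∀ a0 Z s : ℕ, (∀ n : ℕ, X ≤ n → n < 2 * X → kf b c n ≤ a0) →
    a0 + X ≤ Z → s < Wm X →
    (((IA X a0 Z s).filter (fun N => TT b c X z N < ((Bs b c X s).card : ℝ) * (wX X *
      (X / (8 * ((Nat.totient (Wm X) : ℝ) * Real.log X)))))).card : ℝ) ≤ 2 * η * (Z / Wm X) := by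
  obtain ⟨X1, h1⟩ := bad4 b c η hη E
  obtain ⟨X2, h2⟩ := AP_card
  refine ⟨X1 + X2 + 3, fun X hX z hz1 hz2 a0 Z s ha0 hZ hs => ?_⟩
  have hXr : (3 : ℝ) ≤ X := by exact_mod_cast (by omega : 3 ≤ X)
  have hL : 0 < Real.log X := Real.log_pos (by linarith)
  have hφ : (0 : ℝ) < Nat.totient (Wm X) := by exact_mod_cast Nat.totient_pos.2 (Wm_pos X)
  have hW : (0 : ℝ) < Wm X := by exact_mod_cast Wm_pos X
  have hw := wX_pos X
  obtain ⟨φ, hφe⟩ : ∃ φ : ℝ, φ = ((Nat.totient (Wm X) : ℕ) : ℝ) := ⟨_, rfl⟩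
  rw [← hφe] at hφ ⊢
  set B := Bs b c X s with hB
  set bad : ℕ → ℕ → Prop := fun r N => ∑ n ∈ AP X r, lamz z (N - kf b c n) <
      wX X * ((AP X r).card : ℝ) / 2 with hbad
  set Bad := (IA X a0 Z s).filter (fun N => TT b c X z N < (B.card : ℝ) * (wX X *
      (X / (8 * (φ * Real.log X))))) with hBad
  rcases Nat.eq_zero_or_pos B.card with h0 | h0
  · have : Bad = ∅ := by
      rw [hBad, filter_eq_empty_iff]
      intro N _ h
      rw [h0, Nat.cast_zero, zero_mul] at h
      exact absurd h (not_lt.2 (sum_nonneg fun _ _ => lamz_nonneg _ _))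
    rw [this, card_empty, Nat.cast_zero]
    positivity
  have hB0 : (0 : ℝ) < B.card := by exact_mod_cast h0
  have hrc : ∀ r ∈ B, r < Wm X ∧ r.Coprime (Wm X) := by
    intro r hr
    rw [hB, mem_Bs] at hr
    refine ⟨hr.1, ?_⟩
    rw [Wm_eq]
    apply Nat.Coprime.prod_right
    intro p hp
    rw [Nat.coprime_comm]
    rw [(SX_prime X p hp).coprime_iff_not_dvd]
    intro hd
    apply hr.2 p hp
    unfold Pool.Agent.K3h89.SZ.Fq
    exact (Int.natCast_dvd_natCast.2 hd).mul_right _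
  -- an exceptional integer is bad for half of the classes
  have key : ∀ N ∈ Bad, (B.card : ℝ) / 2 ≤ ((B.filter (fun r => bad r N)).card : ℝ) := by
    intro N hN
    by_contra hcon
    push Not at hcon
    have e1 : ((B.filter (fun r => bad r N)).card : ℝ) + ((B.filter (fun r => ¬ bad r N)).card : ℝ) =
        B.card := by
      exact_mod_cast card_filter_add_card_filter_not (s := B) (fun r => bad r N)
    have e2 : (B.card : ℝ) / 2 ≤ ((B.filter (fun r => ¬ bad r N)).card : ℝ) := by linarith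
    have e3 : ∑ r ∈ B, ∑ n ∈ AP X r, lamz z (N - kf b c n) ≤ TT b c X z N := by
      unfold TT
      have hdis : (B : Set ℕ).PairwiseDisjoint (fun r => AP X r) := by
        intro r _ r' _ hne
        rw [Function.onFun, disjoint_left]
        intro n hn hn'
        unfold AP at hn hn'
        rw [mem_filter] at hn hn'
        exact hne (hn.2.2.symm.trans hn'.2.2)
      rw [← sum_biUnion hdis]
      apply sum_le_sum_of_subset_of_nonneg
      · intro n hn
        rw [mem_biUnion] at hn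
        obtain ⟨r, _, hn⟩ := hn
        unfold AP at hn
        unfold PP
        rw [mem_filter] at hn ⊢
        exact ⟨hn.1, hn.2.1⟩
      · intro _ _ _
        exact lamz_nonneg _ _
    have e4 : ∑ r ∈ B.filter (fun r => ¬ bad r N), (wX X * (X / (4 * (φ * Real.log X)))) ≤
        ∑ r ∈ B, ∑ n ∈ AP X r, lamz z (N - kf b c n) := by
      refine le_trans (sum_le_sum fun r hr => ?_) (sum_le_sum_of_subset_of_nonneg (filter_subset (fun r => ¬ bad r N) B)
        fun r _ _ => sum_nonneg fun _ _ => lamz_nonneg _ _)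
      rw [mem_filter] at hr
      have e5 := not_lt.1 hr.2
      refine le_trans ?_ e5
      have e6 := h2 X (by omega) r (hrc r hr.1).1 (hrc r hr.1).2
      rw [← hφe] at e6
      calc wX X * (X / (4 * (φ * Real.log X))) = wX X * (X / (2 * (φ * Real.log X))) / 2 := by
            field_simp
            ring
        _ ≤ _ := by
            apply div_le_div_of_nonneg_right _ (by norm_num)
            exact mul_le_mul_of_nonneg_left e6 hw.le
    rw [sum_const, nsmul_eq_mul] at e4
    have e7 : (B.card : ℝ) * (wX X * (X / (8 * (φ * Real.log X)))) ≤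
        ((B.filter (fun r => ¬ bad r N)).card : ℝ) * (wX X * (X / (4 * (φ * Real.log X)))) := by
      have e8 : (B.card : ℝ) * (wX X * (X / (8 * (φ * Real.log X)))) =
          ((B.card : ℝ) / 2) * (wX X * (X / (4 * (φ * Real.log X)))) := by
        field_simp
        ring
      rw [e8]
      exact mul_le_mul_of_nonneg_right e2 (by positivity)
    rw [hBad, mem_filter] at hN
    exact absurd (e7.trans (e4.trans e3)) (not_le.2 hN.2)
  have h3 : (Bad.card : ℝ) * ((B.card : ℝ) / 2) ≤ (B.card : ℝ) * (η * (Z / Wm X)) := by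
    calc (Bad.card : ℝ) * ((B.card : ℝ) / 2) = ∑ N ∈ Bad, (B.card : ℝ) / 2 := by
          rw [sum_const, nsmul_eq_mul]
      _ ≤ ∑ N ∈ Bad, ((B.filter (fun r => bad r N)).card : ℝ) := sum_le_sum key
      _ = ∑ N ∈ Bad, ∑ r ∈ B, (if bad r N then (1 : ℝ) else 0) := by
          refine sum_congr rfl fun N _ => ?_
          rw [card_filter]
          push_cast
          rfl
      _ = ∑ r ∈ B, ∑ N ∈ Bad, (if bad r N then (1 : ℝ) else 0) := sum_comm
      _ ≤ ∑ r ∈ B, η * (Z / Wm X) := by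
          refine sum_le_sum fun r hr => ?_
          have e1 := h1 X (by omega) z hz1 hz2 a0 Z s ha0 hZ hs r hr
          refine le_trans ?_ e1
          rw [← sum_filter, sum_const, nsmul_eq_mul, mul_one]
          have : Bad.filter (fun N => bad r N) ⊆ (IA X a0 Z s).filter (fun N => ∑ n ∈ AP X r,
              lamz z (N - kf b c n) < wX X * ((AP X r).card : ℝ) / 2) := by
            intro N hN
            rw [mem_filter, hBad, mem_filter] at hN
            rw [mem_filter]
            exact ⟨hN.1.1, hN.2⟩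
          exact_mod_cast card_le_card this
      _ = (B.card : ℝ) * (η * (Z / Wm X)) := by rw [sum_const, nsmul_eq_mul]
  have h4 : (B.card : ℝ) * ((Bad.card : ℝ) / 2) ≤ (B.card : ℝ) * (η * (Z / Wm X)) := by
    calc _ = (Bad.card : ℝ) * ((B.card : ℝ) / 2) := by ring
      _ ≤ _ := h3
  have h5 := le_of_mul_le_mul_left h4 hB0
  linarith

open Classical in
/-- the model is large for most odd integers -/
lemma model (b c : ℤ) (hbc : Odd (b + c)) (hb : ¬ (3 : ℤ) ∣ b) (ε : ℝ) (hε : 0 < ε) :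
    ∃ c₁ : ℝ, 0 < c₁ ∧ ∀ E : ℕ, ∃ X₀ : ℕ, ∀ X : ℕ, X₀ ≤ X → ∀ z : ℕ, HH X ≤ z →
    (z : ℝ) ≤ Real.log X ^ E → ∀ a0 Z : ℕ, (∀ n : ℕ, X ≤ n → n < 2 * X → kf b c n ≤ a0) →
    a0 + X ≤ Z →
    (((Ico a0 Z).filter (fun N => Odd N ∧ TT b c X z N < c₁ * (X / Real.log X))).card : ℝ) ≤ ε * Z := by
  set K : ℝ := 4 * Real.exp 3 / ε with hK
  have hK0 : 0 < K := by positivity
  refine ⟨1 / (8 * K), by positivity, fun E => ?_⟩
  obtain ⟨X1, h1⟩ := bad5 b c (ε / 4) (by positivity) E
  obtain ⟨X2, h2⟩ := Wm_le_log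
  obtain ⟨x3, h3⟩ := evN _ (Real.tendsto_log_atTop.eventually_ge_atTop (Real.exp 8))
  refine ⟨X1 + X2 + x3 + 3, fun X hX z hz1 hz2 a0 Z ha0 hZ => ?_⟩
  have hXr : (3 : ℝ) ≤ X := by exact_mod_cast (by omega : 3 ≤ X)
  have hL := h3 X (by omega)
  have hL0 : 0 < Real.log X := lt_of_lt_of_le (Real.exp_pos _) hL
  have hφ : (0 : ℝ) < Nat.totient (Wm X) := by exact_mod_cast Nat.totient_pos.2 (Wm_pos X)
  have hW : (0 : ℝ) < Wm X := by exact_mod_cast Wm_pos X
  have hWX : (Wm X : ℝ) ≤ X := (h2 X (by omega)).trans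
    ((Real.log_le_sub_one_of_pos (by linarith)).trans (by linarith))
  have hHH : 2 ≤ HH X := by
    unfold HH
    apply Nat.le_floor
    rw [le_div_iff₀ (by norm_num)]
    have : (8 : ℝ) ≤ Real.log (Real.log X) := by
      rw [← Real.log_exp 8]
      exact Real.log_le_log (Real.exp_pos _) hL
    push_cast
    linarith
  have h2W : 2 ∣ Wm X := by
    rw [Wm_eq]
    apply dvd_prod_of_mem (fun p => p)
    unfold SX
    rw [mem_filter, mem_range]
    exact ⟨by omega, Nat.prime_two⟩
  set G1 := (range (Wm X)).filter (fun s => K < ∏ p ∈ SX X, hl b c p s) with hG1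
  set A1 := G1.biUnion (fun s => IA X a0 Z s) with hA1
  set A2 := (range (Wm X)).biUnion (fun s => (IA X a0 Z s).filter (fun N => TT b c X z N <
    ((Bs b c X s).card : ℝ) * (wX X * (X / (8 * ((Nat.totient (Wm X) : ℝ) * Real.log X)))))) with hA2
  have hsub : (Ico a0 Z).filter (fun N => Odd N ∧ TT b c X z N < 1 / (8 * K) * (X / Real.log X)) ⊆
      A1 ∪ A2 := by
    intro N hN
    rw [mem_filter] at hN
    obtain ⟨hN1, hN2, hN3⟩ := hN
    have hs : N % Wm X < Wm X := Nat.mod_lt _ (Wm_pos X)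
    have hNI : N ∈ IA X a0 Z (N % Wm X) := by
      unfold IA
      rw [mem_filter]
      exact ⟨hN1, rfl⟩
    rw [mem_union]
    by_cases hg : K < ∏ p ∈ SX X, hl b c p (N % Wm X)
    · left
      rw [hA1, mem_biUnion]
      exact ⟨N % Wm X, by rw [hG1, mem_filter, mem_range]; exact ⟨hs, hg⟩, hNI⟩
    · right
      rw [hA2, mem_biUnion]
      refine ⟨N % Wm X, mem_range.2 hs, ?_⟩
      rw [mem_filter]
      refine ⟨hNI, lt_of_lt_of_le hN3 ?_⟩
      have hodd : Odd (N % Wm X) := by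
        rw [Nat.odd_iff] at hN2 ⊢
        rw [Nat.mod_mod_of_dvd _ h2W]
        exact hN2
      have hB := Bs_low b c hbc hb X (N % Wm X) hodd K (not_lt.1 hg)
      have hw : wX X = (Wm X : ℝ) / Nat.totient (Wm X) := rfl
      rw [hw]
      set φ : ℝ := ((Nat.totient (Wm X) : ℕ) : ℝ) with hφe
      set B : ℝ := ((Bs b c X (N % Wm X)).card : ℝ) with hBe
      have e1 : 1 / (8 * K) * ((X : ℝ) / Real.log X) = φ ^ 2 * (X / (8 * K * φ ^ 2 * Real.log X)) := by
        field_simp
      have e2 : B * ((Wm X : ℝ) / φ * (X / (8 * (φ * Real.log X)))) =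
          (K * (Wm X * B)) * (X / (8 * K * φ ^ 2 * Real.log X)) := by
        field_simp
      rw [e1, e2]
      exact mul_le_mul_of_nonneg_right hB (by positivity)
  have hIA : ∀ s < Wm X, ((IA X a0 Z s).card : ℝ) ≤ 2 * (Z / Wm X) := by
    intro s hs
    have e1 := IA_card X a0 Z s hs (by omega)
    have hZX : (X : ℝ) ≤ Z := by exact_mod_cast (by omega : X ≤ Z)
    have e3 : 1 ≤ (Z : ℝ) / Wm X := by
      rw [le_div_iff₀ hW]
      linarith
    have e4 : ((Z : ℝ) - a0) / Wm X ≤ Z / Wm X := by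
      apply div_le_div_of_nonneg_right _ hW.le
      have : (0 : ℝ) ≤ a0 := Nat.cast_nonneg _
      linarith
    linarith
  have hc1 : (A1.card : ℝ) ≤ ε / 2 * Z := by
    have e1 : (A1.card : ℝ) ≤ ∑ s ∈ G1, ((IA X a0 Z s).card : ℝ) := by
      exact_mod_cast card_biUnion_le
    refine e1.trans ?_
    have e2 : ∑ s ∈ G1, ((IA X a0 Z s).card : ℝ) ≤ ∑ s ∈ G1, 2 * ((Z : ℝ) / Wm X) := by
      apply sum_le_sum
      intro s hs
      rw [hG1, mem_filter, mem_range] at hs
      exact hIA s hs.1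
    refine e2.trans ?_
    rw [sum_const, nsmul_eq_mul]
    have e3 : (G1.card : ℝ) ≤ Real.exp 3 / K * Wm X := by
      have := few_cls b c (SX X) (SX_prime X) K hK0
      rw [← Wm_eq] at this
      exact this
    calc (G1.card : ℝ) * (2 * (Z / Wm X)) ≤ (Real.exp 3 / K * Wm X) * (2 * (Z / Wm X)) :=
          mul_le_mul_of_nonneg_right e3 (by positivity)
      _ = ε / 2 * Z := by
          rw [hK]
          field_simp
          ring
  have hc2 : (A2.card : ℝ) ≤ ε / 2 * Z := by
    have e1 : (A2.card : ℝ) ≤ ∑ s ∈ range (Wm X), (((IA X a0 Z s).filter (fun N => TT b c X z N <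
        ((Bs b c X s).card : ℝ) * (wX X * (X / (8 * ((Nat.totient (Wm X) : ℝ) * Real.log X)))))).card : ℝ) := by
      exact_mod_cast card_biUnion_le
    refine e1.trans ?_
    have e2 : ∑ s ∈ range (Wm X), (((IA X a0 Z s).filter (fun N => TT b c X z N <
        ((Bs b c X s).card : ℝ) * (wX X * (X / (8 * ((Nat.totient (Wm X) : ℝ) * Real.log X)))))).card : ℝ) ≤
        ∑ s ∈ range (Wm X), 2 * (ε / 4) * ((Z : ℝ) / Wm X) := by
      apply sum_le_sum
      intro s hs
      exact h1 X (by omega) z hz1 hz2 a0 Z s ha0 hZ (mem_range.1 hs)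
    refine e2.trans (le_of_eq ?_)
    rw [sum_const, card_range, nsmul_eq_mul]
    field_simp
    ring
  calc _ ≤ ((A1 ∪ A2).card : ℝ) := by exact_mod_cast card_le_card hsub
    _ ≤ (A1.card : ℝ) + A2.card := by exact_mod_cast card_union_le _ _
    _ ≤ ε * Z := by linarith

end Pool.Agent.Zk41.SC
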