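import Pool.Agent.Zk41.SC.E
import Pool.Agent.TH882.BilG

/-!
Zk41/SC (helper41): most odd integers have the expected number of representations `n = f(p) + q`.
-/

set_option autoImplicit false

open Finset Filter Topology Polynomial

namespace Pool.Agent.Zk41.SC

open Pool.Agent.H361R2.PP
open Pool.Agent.TH882.PG
open Pool.Agent.H373R2.T7 (lamz lamz_nonneg)
open Pool.Agent.K3h89.SZ (S_CNT Rep)

theorem cnt : S_CNT := by
  classical
  intro b c hbc hb G ε hε
  rcases Nat.lt_or_ge G 3 with hG | hG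
  · refine ⟨1, one_pos, 0, fun X _ => ?_⟩
    have : Ioc (2 * X ^ 2) (G * X ^ 2) = ∅ := by
      rw [Ioc_eq_empty_iff]
      push Not
      exact Nat.mul_le_mul_right _ (by omega)
    rw [this]
    simp
    positivity
  have hG0 : (0 : ℝ) < G := by exact_mod_cast (by omega : 0 < G)
  obtain ⟨c₁, hc₁, hmod⟩ := model b c hbc hb (ε / (4 * G)) (by positivity)
  obtain ⟨B0, hB0⟩ := bilG (fp b c) (by rw [fp_deg]; norm_num) (by rw [fp_lead]; norm_num) (9 * G)
    (by omega) 3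
  set E : ℕ := B0 + 2 with hE
  obtain ⟨X1, h1⟩ := hmod E
  obtain ⟨X2, h2⟩ := hB0 E
  obtain ⟨x3, h3⟩ := evN _ (Real.tendsto_log_atTop.eventually_ge_atTop (max 2 (8 / (c₁ * ε))))
  refine ⟨c₁ / 18, by positivity, 2 * (X1 + X2 + x3 + 9 * G + n0 b c + 5) + 1 + b.natAbs + c.natAbs,
    fun X hX => ?_⟩
  set Y : ℕ := X / 2 with hY
  have hYX : 2 * Y ≤ X := by omega
  have hXY : X ≤ 2 * Y + 1 := by omega
  have hYb : X1 + X2 + x3 + 9 * G + n0 b c + 5 ≤ Y := by omega
  have hYr : (5 : ℝ) ≤ Y := by exact_mod_cast (by omega : 5 ≤ Y)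
  have hXr : (5 : ℝ) ≤ X := by exact_mod_cast (by omega : 5 ≤ X)
  have hYX' : (Y : ℝ) ≤ X := by exact_mod_cast (by omega : Y ≤ X)
  have hXY' : (X : ℝ) ≤ 3 * Y := by exact_mod_cast (by omega : X ≤ 3 * Y)
  have hl := h3 Y (by omega)
  have hl2 : 2 ≤ Real.log Y := (le_max_left _ _).trans hl
  have hl3 : 8 / (c₁ * ε) ≤ Real.log Y := (le_max_right _ _).trans hl
  have hL0 : 0 < Real.log Y := by linarith
  -- the sifting level
  set z : ℕ := ⌈Real.log Y ^ (B0 + 1)⌉₊ with hz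
  have hz1 : Real.log Y ^ (B0 + 1) ≤ z := Nat.le_ceil _
  have hz2 : (z : ℝ) ≤ Real.log Y ^ E := by
    have e1 : (z : ℝ) < Real.log Y ^ (B0 + 1) + 1 := Nat.ceil_lt_add_one (by positivity)
    have e2 : (1 : ℝ) ≤ Real.log Y ^ (B0 + 1) := one_le_pow₀ (by linarith)
    have e3 : Real.log Y ^ E = Real.log Y ^ (B0 + 1) * Real.log Y := by
      rw [hE, show B0 + 2 = (B0 + 1) + 1 by ring, pow_succ]
    rw [e3]
    nlinarith
  have hzB : Real.log Y ^ B0 ≤ z := by
    refine le_trans ?_ hz1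
    exact pow_le_pow_right₀ (by linarith) (by omega)
  have hHH : HH Y ≤ z := by
    have e1 : ((HH Y : ℕ) : ℝ) ≤ z := by
      unfold HH
      have e2 : 0 ≤ Real.log (Real.log Y) := Real.log_nonneg (by linarith)
      refine (Nat.floor_le (by positivity)).trans (le_trans ?_ hz1)
      have e3 : Real.log (Real.log Y) ≤ Real.log Y :=
        (Real.log_le_sub_one_of_pos hL0).trans (by linarith)
      have e4 : Real.log Y ≤ Real.log Y ^ (B0 + 1) := by
        calc Real.log Y = Real.log Y ^ 1 := (pow_one _).symm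
          _ ≤ _ := pow_le_pow_right₀ (by linarith) (by omega)
      linarith
    exact_mod_cast e1
  -- ranges
  have hkf : ∀ n : ℕ, Y ≤ n → n < 2 * Y → kf b c n ≤ 2 * X ^ 2 := by
    intro n hn1 hn2
    have e1 := kf_cast b c n (by omega)
    have e2 : (n : ℤ) ≤ X := by exact_mod_cast (by omega : n ≤ X)
    have e3 : (b.natAbs : ℤ) + c.natAbs + 1 ≤ X := by exact_mod_cast (by omega : b.natAbs + c.natAbs + 1 ≤ X)
    have e4 : (0 : ℤ) ≤ n := Int.natCast_nonneg n
    have e5 : b ≤ b.natAbs := by omega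
    have e6 : c ≤ c.natAbs := by omega
    have e7 : (0 : ℤ) ≤ b.natAbs := Int.natCast_nonneg _
    have e8 : (0 : ℤ) ≤ c.natAbs := Int.natCast_nonneg _
    have e9 : (n : ℤ) ^ 2 + b * n + c ≤ 2 * (X : ℤ) ^ 2 := by
      have f1 : b * n ≤ b.natAbs * X := by
        calc b * n ≤ b.natAbs * n := mul_le_mul_of_nonneg_right e5 e4
          _ ≤ b.natAbs * X := mul_le_mul_of_nonneg_left e2 e7
      have f2 : (n : ℤ) ^ 2 ≤ (X : ℤ) ^ 2 := pow_le_pow_left₀ e4 e2 2
      have f3 : (b.natAbs : ℤ) * X + c.natAbs ≤ (X : ℤ) ^ 2 := by nlinarith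
      linarith
    rw [← e1] at e9
    exact_mod_cast e9
  set a0 : ℕ := 2 * X ^ 2 + 1 with ha0
  set Z : ℕ := G * X ^ 2 + 1 with hZ
  have hX2 : X ≤ X ^ 2 := Nat.le_self_pow (by norm_num) X
  have hZa : a0 + Y ≤ Z := by
    have : 3 * X ^ 2 ≤ G * X ^ 2 := Nat.mul_le_mul_right _ hG
    omega
  have hm := h1 Y (by omega) z hHH hz2 a0 Z (fun n hn1 hn2 => (hkf n hn1 hn2).trans (by omega)) hZa
  -- the bilinear estimate
  have hYY : G * X ^ 2 ≤ 9 * G * Y ^ 2 := by
    have e1 : X ≤ 3 * Y := by omega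
    have e2 : X ^ 2 ≤ (3 * Y) ^ 2 := Nat.pow_le_pow_left e1 2
    calc G * X ^ 2 ≤ G * (3 * Y) ^ 2 := Nat.mul_le_mul_left _ e2
      _ = 9 * G * Y ^ 2 := by ring
  have hPP : ∀ n ∈ PP Y, Y ≤ n ∧ n < 2 * Y ∧ n.Prime := by
    intro n hn
    unfold PP at hn
    rw [mem_filter, mem_Ico] at hn
    exact ⟨hn.1.1, hn.1.2, hn.2⟩
  have hval : ∀ N ∈ Ico a0 Z, ∀ n ∈ PP Y, (N : ℤ) + (-1) * (fp b c).eval (n : ℤ) = ((N - kf b c n : ℕ) : ℤ) ∧
      1 ≤ N - kf b c n ∧ N - kf b c n ≤ 9 * G * Y ^ 2 := by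
    intro N hN n hn
    rw [mem_Ico] at hN
    have e0 := hPP n hn
    have e1 := hkf n e0.1 e0.2.1
    have e2 := kf_cast b c n (by omega)
    refine ⟨?_, by omega, by omega⟩
    rw [fp_eval, Nat.cast_sub (by omega), e2]
    ring
  have hb2 := h2 Y (by omega) z hzB hz2 (-1) (Or.inr rfl) (Ico a0 Z) (PP Y)
    (by
      intro N hN
      rw [mem_Ico] at hN
      rw [fp_deg]
      exact ⟨by omega, by omega⟩)
    (by
      intro n hn
      have := hPP n hn
      omega)
    (by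
      intro N hN n hn
      obtain ⟨e1, e2, e3⟩ := hval N hN n hn
      rw [e1, fp_deg]
      exact ⟨by exact_mod_cast e2, by exact_mod_cast e3⟩)
  rw [fp_deg] at hb2
  set Dif : ℕ → ℝ := fun N => |∑ n ∈ PP Y, (thI (N + (-1) * (fp b c).eval (n : ℤ)) -
    lamz z ((N : ℤ) + (-1) * (fp b c).eval (n : ℤ)).toNat)| with hDif
  -- the representations
  set R : ℕ → Finset ℕ := fun N => (PP Y).filter (fun n => (N - kf b c n).Prime) with hR
  set A1 := (Ico a0 Z).filter (fun N => Odd N ∧ TT b c Y z N < c₁ * (Y / Real.log Y)) with hA1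
  set A2 := (Ico a0 Z).filter (fun N => c₁ / 2 * (Y / Real.log Y) ≤ Dif N) with hA2
  have hsub : (Ioc (2 * X ^ 2) (G * X ^ 2)).filter (fun n : ℕ => Odd n ∧
      (((Icc 1 X).filter (fun p : ℕ => p ∈ Rep b c n)).card : ℝ) < c₁ / 18 * (X / Real.log X ^ 2)) ⊆ A1 ∪ A2 := by
    intro N hN
    rw [mem_filter, mem_Ioc] at hN
    obtain ⟨hN1, hN2, hN3⟩ := hN
    have hNI : N ∈ Ico a0 Z := by
      rw [mem_Ico]
      omega
    rw [mem_union]
    by_cases hT : TT b c Y z N < c₁ * (Y / Real.log Y)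
    · left
      rw [hA1, mem_filter]
      exact ⟨hNI, hN2, hT⟩
    right
    rw [hA2, mem_filter]
    refine ⟨hNI, ?_⟩
    have e1 : (R N).card ≤ ((Icc 1 X).filter (fun p : ℕ => p ∈ Rep b c N)).card := by
      apply card_le_card
      intro n hn
      rw [hR] at hn
      simp only [mem_filter] at hn
      have e0 := hPP n hn.1
      rw [mem_filter, mem_Icc]
      refine ⟨by omega, e0.2.2, N - kf b c n, hn.2, ?_⟩
      have e2 := kf_cast b c n (by omega)
      have e3 := hkf n e0.1 e0.2.1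
      rw [Nat.cast_sub (by omega), e2]
      ring
    have e2 : ((R N).card : ℝ) < c₁ / 18 * (X / Real.log X ^ 2) :=
      lt_of_le_of_lt (by exact_mod_cast e1) hN3
    have e3 : ∑ n ∈ PP Y, thI (N + (-1) * (fp b c).eval (n : ℤ)) ≤ (R N).card * (3 * Real.log Y) := by
      have f1 : ∀ n ∈ PP Y, thI (N + (-1) * (fp b c).eval (n : ℤ)) ≤
          if (N - kf b c n).Prime then 3 * Real.log Y else 0 := by
        intro n hn
        obtain ⟨g1, g2, g3⟩ := hval N hNI n hn
        rw [g1]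
        unfold thI
        rw [Int.toNat_natCast]
        split_ifs with h
        · have g4 : ((N - kf b c n : ℕ) : ℝ) ≤ (Y : ℝ) ^ 3 := by
            have g5 : N - kf b c n ≤ Y ^ 3 := by
              refine g3.trans ?_
              calc 9 * G * Y ^ 2 ≤ Y * Y ^ 2 := Nat.mul_le_mul_right _ (by omega)
                _ = Y ^ 3 := by ring
            exact_mod_cast g5
          have g6 : (0 : ℝ) < ((N - kf b c n : ℕ) : ℝ) := by exact_mod_cast g2
          have g7 := Real.log_le_log g6 g4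
          rw [Real.log_pow] at g7
          push_cast at g7
          exact g7
        · exact le_rfl
      refine (sum_le_sum f1).trans ?_
      rw [← sum_filter, sum_const, nsmul_eq_mul]
    have e4 : ∑ n ∈ PP Y, lamz z ((N : ℤ) + (-1) * (fp b c).eval (n : ℤ)).toNat = TT b c Y z N := by
      unfold TT
      apply sum_congr rfl
      intro n hn
      rw [(hval N hNI n hn).1, Int.toNat_natCast]
    have e5 : c₁ / 18 * ((X : ℝ) / Real.log X ^ 2) * (3 * Real.log Y) ≤ c₁ / 2 * (Y / Real.log Y) := by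
      have f1 : Real.log Y ≤ Real.log X := Real.log_le_log (by linarith) hYX'
      have f2 : (X : ℝ) / Real.log X ^ 2 ≤ 3 * Y / Real.log Y ^ 2 := by
        apply div_le_div₀ (by positivity) hXY' (by positivity)
        exact pow_le_pow_left₀ hL0.le f1 2
      calc c₁ / 18 * ((X : ℝ) / Real.log X ^ 2) * (3 * Real.log Y) ≤
            c₁ / 18 * (3 * Y / Real.log Y ^ 2) * (3 * Real.log Y) := by gcongr
        _ = _ := by
            field_simp
            norm_num
    have e6 : ((R N).card : ℝ) * (3 * Real.log Y) ≤ c₁ / 18 * (X / Real.log X ^ 2) * (3 * Real.log Y) :=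
      mul_le_mul_of_nonneg_right e2.le (by positivity)
    rw [hDif]
    simp only
    rw [sum_sub_distrib, e4]
    have e7 : c₁ * ((Y : ℝ) / Real.log Y) ≤ TT b c Y z N := not_lt.1 hT
    have e8 : c₁ * ((Y : ℝ) / Real.log Y) = c₁ / 2 * (Y / Real.log Y) + c₁ / 2 * (Y / Real.log Y) := by ring
    rw [abs_sub_comm]
    refine le_trans ?_ (le_abs_self _)
    linarith
  have hc1 : (A1.card : ℝ) ≤ ε / 2 * (X : ℝ) ^ 2 := by
    refine hm.trans ?_
    have e1 : (Z : ℝ) ≤ 2 * (G * (X : ℝ) ^ 2) := by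
      have : Z ≤ 2 * (G * X ^ 2) := by
        have : 1 ≤ G * X ^ 2 := Nat.mul_pos (by omega) (pow_pos (by omega) 2)
        omega
      exact_mod_cast this
    calc ε / (4 * G) * (Z : ℝ) ≤ ε / (4 * G) * (2 * (G * (X : ℝ) ^ 2)) :=
          mul_le_mul_of_nonneg_left e1 (by positivity)
      _ = ε / 2 * (X : ℝ) ^ 2 := by
          field_simp
          ring
  have hc2 : (A2.card : ℝ) ≤ ε / 2 * (X : ℝ) ^ 2 := by
    have e1 : (A2.card : ℝ) * (c₁ / 2 * (Y / Real.log Y)) ≤ (Y : ℝ) ^ 2 * Y / Real.log Y ^ 3 := by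
      calc (A2.card : ℝ) * (c₁ / 2 * (Y / Real.log Y)) = ∑ N ∈ A2, c₁ / 2 * (Y / Real.log Y) := by
            rw [sum_const, nsmul_eq_mul]
        _ ≤ ∑ N ∈ A2, Dif N := sum_le_sum fun N hN => (mem_filter.1 hN).2
        _ ≤ ∑ N ∈ Ico a0 Z, Dif N :=
            sum_le_sum_of_subset_of_nonneg (filter_subset _ _) fun _ _ _ => abs_nonneg _
        _ ≤ _ := hb2
    have hY0 : (0 : ℝ) < Y := by linarith
    have e2 : (A2.card : ℝ) * (c₁ / 2 * (Y / Real.log Y)) ≤
        (2 / c₁ * ((Y : ℝ) ^ 2 / Real.log Y ^ 2)) * (c₁ / 2 * (Y / Real.log Y)) := by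
      refine e1.trans (le_of_eq ?_)
      field_simp
    have e3 := le_of_mul_le_mul_right e2 (by positivity)
    refine e3.trans ?_
    have e4 : 2 / c₁ * ((Y : ℝ) ^ 2 / Real.log Y ^ 2) ≤ 2 / c₁ * ((Y : ℝ) ^ 2 / Real.log Y) := by
      apply mul_le_mul_of_nonneg_left _ (by positivity)
      apply div_le_div_of_nonneg_left (by positivity) hL0
      nlinarith
    refine e4.trans ?_
    rw [mul_div_assoc', div_le_iff₀ hL0]
    have e5 : 2 / c₁ ≤ ε / 2 * Real.log Y := by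
      have f1 : 8 / (c₁ * ε) * (ε / 2) ≤ Real.log Y * (ε / 2) := mul_le_mul_of_nonneg_right hl3 (by positivity)
      have f2 : 8 / (c₁ * ε) * (ε / 2) = 4 / c₁ := by
        field_simp
        norm_num
      have f3 : 2 / c₁ ≤ 4 / c₁ := div_le_div_of_nonneg_right (by norm_num) hc₁.le
      linarith
    calc 2 / c₁ * (Y : ℝ) ^ 2 ≤ (ε / 2 * Real.log Y) * (Y : ℝ) ^ 2 :=
          mul_le_mul_of_nonneg_right e5 (by positivity)
      _ ≤ (ε / 2 * Real.log Y) * (X : ℝ) ^ 2 := by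
          apply mul_le_mul_of_nonneg_left _ (by positivity)
          exact pow_le_pow_left₀ hY0.le hYX' 2
      _ = _ := by ring
  calc _ ≤ ((A1 ∪ A2).card : ℝ) := by exact_mod_cast card_le_card hsub
    _ ≤ (A1.card : ℝ) + A2.card := by exact_mod_cast card_union_le _ _
    _ ≤ ε * (X : ℝ) ^ 2 := by linarith

end Pool.Agent.Zk41.SC
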